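import Pool.Agent.Y212.Dk.Top

/-!
MP_b525bf_ag: resolution of the quotients of all generic determinantal varieties by the products
of Frobenius kernels `(GL_n)_r × (GL_m)_r'` acting from both sides.
-/

set_option autoImplicit false

open AlgebraicGeometry CategoryTheory MvPolynomial Pool.Agent.H920R2

universe u

namespace Pool.Agent.Results.MP_b525bf_ag.DeterminantalKernels

variable (k : Type u) [Field k] (n m s : ℕ)

/-- The coordinate ring `k[B, C]` of the space of the pairs of an `n × s`-matrix `B` and an
`s × m`-matrix `C`. -/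
abbrev Pairs := MvPolynomial ((Fin n × Fin s) ⊕ (Fin s × Fin m)) k

/-- The homomorphism `k[X] → k[B, C]`, `X i j ↦ ∑ l, B i l * C l j`, of the map
`(B, C) ↦ B C` to the space of `n × m`-matrices. Its image `k[BC]` is the coordinate ring of the
variety `X_s` of the `n × m`-matrices of rank at most `s` (`s ≤ n`, `s ≤ m`), with its reduced
structure. -/
noncomputable def product : MvPolynomial (Fin n × Fin m) k →ₐ[k] Pairs k n m s :=
  aeval fun u => ∑ l, X (Sum.inl (u.1, l)) * X (Sum.inr (l, u.2))

/-- The coaction of the left multiplication: `B ↦ G B`, `C ↦ C` (hence `BC ↦ G (BC)`), where `G`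
is the generic `n × n`-matrix. -/
noncomputable def left : Pairs k n m s →ₐ[k] MvPolynomial (Fin n × Fin n) (Pairs k n m s) :=
  aeval (Sum.elim (fun u => ∑ i, X (u.1, i) * C (X (Sum.inl (i, u.2))))
    fun u => C (X (Sum.inr u)))

/-- The coaction of the right multiplication: `B ↦ B`, `C ↦ C H` (hence `BC ↦ (BC) H`), where `H`
is the generic `m × m`-matrix. -/
noncomputable def right : Pairs k n m s →ₐ[k] MvPolynomial (Fin m × Fin m) (Pairs k n m s) :=
  aeval (Sum.elim (fun u => C (X (Sum.inl u)))
    fun u => ∑ j, X (j, u.2) * C (X (Sum.inr (u.1, j))))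

/-- The ideal generated by the `G i j ^ q - δ i j`, for the generic `a × a`-matrix `G`: the
equations of the `r`-th Frobenius kernel of `GL_a`, if `q = p ^ r`. -/
noncomputable def kernelIdeal (a q : ℕ) :
    Ideal (MvPolynomial (Fin a × Fin a) (Pairs k n m s)) :=
  Ideal.span (Set.range fun u => X u ^ q - if u.1 = u.2 then 1 else 0)

/-- The function `f` is invariant under the left multiplications by `(GL_n)_r`, if
`q = p ^ r`. -/
def IsLeftInvariant (q : ℕ) (f : Pairs k n m s) : Prop :=
  left k n m s f - C f ∈ kernelIdeal k n m s n q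

/-- The function `f` is invariant under the right multiplications by `(GL_m)_r'`, if
`q' = p ^ r'`. -/
def IsRightInvariant (q' : ℕ) (f : Pairs k n m s) : Prop :=
  right k n m s f - C f ∈ kernelIdeal k n m s m q'

/-- The polynomial `f` in the entries of `B` and `C` is a function on the determinantal variety
`X_s`, and it is invariant under the left multiplications by `(GL_n)_r` and the right
multiplications by `(GL_m)_r'`, if `q = p ^ r` and `q' = p ^ r'`. -/
def IsInvariant (q q' : ℕ) (f : Pairs k n m s) : Prop :=
  f ∈ (product k n m s).range ∧ IsLeftInvariant k n m s q f ∧ IsRightInvariant k n m s q' f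

theorem IsInvariant.mul (q q' : ℕ) {f g : Pairs k n m s} (hf : IsInvariant k n m s q q' f)
    (hg : IsInvariant k n m s q q' g) : IsInvariant k n m s q q' (f * g) :=
  (Pool.Agent.Y212.Dk.InvD k n m s q q').mul_mem' (a := f) (b := g) hf hg

theorem IsInvariant.add (q q' : ℕ) {f g : Pairs k n m s} (hf : IsInvariant k n m s q q' f)
    (hg : IsInvariant k n m s q q' g) : IsInvariant k n m s q q' (f + g) :=
  (Pool.Agent.Y212.Dk.InvD k n m s q q').add_mem' (a := f) (b := g) hf hg

theorem IsInvariant.const (q q' : ℕ) (c : k) :
    IsInvariant k n m s q q' (algebraMap k (Pairs k n m s) c) :=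
  (Pool.Agent.Y212.Dk.InvD k n m s q q').algebraMap_mem' c

/-- The algebra of the functions on the determinantal variety `X_s` which are invariant under the
left multiplications by `(GL_n)_r` and the right multiplications by `(GL_m)_r'`, if `q = p ^ r`
and `q' = p ^ r'`. -/
noncomputable def invariants (q q' : ℕ) : Subalgebra k (Pairs k n m s) where
  carrier := {f | IsInvariant k n m s q q' f}
  mul_mem' := fun hf hg => IsInvariant.mul k n m s q q' hf hg
  add_mem' := fun hf hg => IsInvariant.add k n m s q q' hf hg
  algebraMap_mem' := fun c => IsInvariant.const k n m s q q' c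

/-- The quotient of the determinantal variety `X_s` by `(GL_n)_r × (GL_m)_r'`, if `q = p ^ r` and
`q' = p ^ r'`. -/
noncomputable def quot (q q' : ℕ) : Scheme.{u} :=
  Spec (CommRingCat.of (invariants k n m s q q'))

/-- The structure morphism of the quotient. -/
noncomputable def quotStr (q q' : ℕ) : quot k n m s q q' ⟶ Spec (CommRingCat.of k) :=
  Spec.map (CommRingCat.ofHom (algebraMap k (invariants k n m s q q')))

/-- Let `k` be a field of characteristic `p`, `s ≤ n`, `s ≤ m` and `r' ≤ r`, and suppose that
`s < n` or `0 < r'`. Let `X_s` be the variety of the `n × m`-matrices of rank at most `s` over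
`k`. The quotient of `X_s` by the product `(GL_n)_r × (GL_m)_r'` of the Frobenius kernels, acting
by left and right multiplication, is a variety and has a resolution of singularities. -/
theorem result (p : ℕ) [Fact p.Prime] (k : Type u) [Field k] [CharP k p] (n m s r r' : ℕ)
    (hsn : s ≤ n) (hsm : s ≤ m) (hr : r' ≤ r) (_h : s < n ∨ 0 < r') :
    IsVariety (quotStr k n m s (p ^ r) (p ^ r')) ∧
      HasResolution (quotStr k n m s (p ^ r) (p ^ r')) := by
  have hp : p.Prime := Fact.out
  have h1 : Algebra.FiniteType k (Pool.Agent.Y212.Dk.InvD k n m s (p ^ r) (p ^ r')) :=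
    Pool.Agent.Y212.Dk.finiteType_of_pow' (Pool.Agent.Y212.Dk.phi k n m s) _
      (fun _ hx => hx.1) (pow_pos hp.pos r) fun v => Pool.Agent.Y212.Dk.pow_memD hr v
  have h2 : IsVariety (X := Spec (CommRingCat.of
      (Pool.Agent.Y212.Dk.InvD k n m s (p ^ r) (p ^ r'))))
      (Spec.map (CommRingCat.ofHom
        (algebraMap k (Pool.Agent.Y212.Dk.InvD k n m s (p ^ r) (p ^ r'))))) :=
    isVariety_spec
  exact ⟨h2, Pool.Agent.Y212.Dk.hasResolutionD hr hsn hsm⟩

end Pool.Agent.Results.MP_b525bf_ag.DeterminantalKernels
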