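import Pool.Agent.Y212.Pk.Top

/-!
MP_b525bf_ag: resolution of the quotients of the spaces of `n × m`-matrices by the Frobenius
kernels of the proper parabolic subgroups of `GL_n`, and by the infinitesimal group schemes of
mixed heights in all parabolic subgroups.
-/

set_option autoImplicit false

open AlgebraicGeometry CategoryTheory MvPolynomial Pool.Agent.H920R2

universe u

namespace Pool.Agent.Results.MP_b525bf_ag.ParabolicKernels

variable (k : Type u) [Field k] (n m : ℕ)

/-- The homomorphism `X i j ↦ ∑ l, G i l * X l j` from the coordinate ring `k[X]` of the space of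
`n × m`-matrices to the polynomial ring `k[X][G]`, where `X` and `G` are the generic
`n × m`-matrix and the generic `n × n`-matrix: left multiplication by `G`. -/
noncomputable def coaction : MvPolynomial (Fin n × Fin m) k →ₐ[k]
    MvPolynomial (Fin n × Fin n) (MvPolynomial (Fin n × Fin m) k) :=
  aeval fun u => ∑ l, X (u.1, l) * C (X (l, u.2))

/-- The ideal of `k[X][G]` generated by the `G i j ^ q i - δ i j` and by the `G i j` with
`lv j < lv i`. If `q i = p ^ r i`, it defines the closed subscheme `H × M_{n,m}` of
`M_n × M_{n,m}`, where `H = H(lv, r)` is the infinitesimal group scheme of the matrices `g` in the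
parabolic subgroup `P = {g | g i j = 0 if lv j < lv i}` of `GL_n` with `g i j ^ (p ^ r i) = δ i j`.
If all `r i` are equal to `s`, this is the `s`-th Frobenius kernel of `P`. -/
noncomputable def kernelIdeal (lv q : Fin n → ℕ) :
    Ideal (MvPolynomial (Fin n × Fin n) (MvPolynomial (Fin n × Fin m) k)) :=
  Ideal.span ((Set.range fun u => X u ^ q u.1 - if u.1 = u.2 then 1 else 0) ∪
    ((fun u => X u) '' {u | lv u.2 < lv u.1}))

/-- The algebra of the functions on the space of `n × m`-matrices which are invariant under the
left multiplications by `H(lv, r)`, if `q i = p ^ r i`. -/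
noncomputable def invariants (lv q : Fin n → ℕ) :
    Subalgebra k (MvPolynomial (Fin n × Fin m) k) where
  carrier := {f | coaction k n m f - C f ∈ kernelIdeal k n m lv q}
  mul_mem' := (Pool.Agent.Y212.Pk.InvP k n m lv q).mul_mem'
  add_mem' := (Pool.Agent.Y212.Pk.InvP k n m lv q).add_mem'
  algebraMap_mem' := (Pool.Agent.Y212.Pk.InvP k n m lv q).algebraMap_mem'

/-- The quotient of the space of `n × m`-matrices by `H(lv, r)`, if `q i = p ^ r i`. -/
noncomputable def quot (lv q : Fin n → ℕ) : Scheme.{u} :=
  Spec (CommRingCat.of (invariants k n m lv q))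

/-- The structure morphism of the quotient. -/
noncomputable def quotStr (lv q : Fin n → ℕ) : quot k n m lv q ⟶ Spec (CommRingCat.of k) :=
  Spec.map (CommRingCat.ofHom (algebraMap k (invariants k n m lv q)))

/-- Let `k` be a field of characteristic `p`, let `n ≤ m`, let `lv : Fin n → ℕ` be arbitrary, let
`P` be the parabolic subgroup of `GL_n` of the matrices `g` with `g i j = 0` if `lv j < lv i`, and
let `r i` be arbitrary natural numbers. Suppose that `P` is a proper subgroup (`lv` is not
constant) or that the `r i` are not all equal. The quotient of the space of `n × m`-matrices over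
`k` by the infinitesimal group scheme of the `g` in `P` with `g i j ^ (p ^ r i) = δ i j`, acting by
left multiplication, is a variety and has a resolution of singularities. If `lv` is not constant
and all `r i` are equal to `s`, this is the quotient by the `s`-th Frobenius kernel of the proper
parabolic subgroup `P`. -/
theorem result (p : ℕ) [Fact p.Prime] (k : Type u) [Field k] [CharP k p] (n m : ℕ)
    (hnm : n ≤ m) (lv r : Fin n → ℕ) (_h : ∃ i j, lv i ≠ lv j ∨ r i ≠ r j) :
    IsVariety (quotStr k n m lv fun i => p ^ r i) ∧
    ∃ (Y : Scheme.{u}) (π : Y ⟶ quot k n m lv fun i => p ^ r i),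
      AlgebraicGeometry.IsIntegral Y ∧ AlgebraicGeometry.IsProper π ∧
      AlgebraicGeometry.Smooth (π ≫ quotStr k n m lv fun i => p ^ r i) ∧
      ∃ U : (quot k n m lv fun i => p ^ r i).Opens,
        Dense (U : Set (quot k n m lv fun i => p ^ r i)) ∧ IsIso (π ∣_ U) := by
  have hp : p.Prime := Fact.out
  obtain ⟨R, hR⟩ : ∃ R, ∀ i, r i ≤ R :=
    ⟨Finset.univ.sup r, fun i => Finset.le_sup (f := r) (Finset.mem_univ i)⟩
  have h1 : Algebra.FiniteType k (Pool.Agent.Y212.Pk.InvP k n m lv fun i => p ^ r i) := by
    refine Pool.Agent.Y212.Fk.finiteType_of_pow _ (pow_pos hp.pos R) fun v => ?_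
    obtain ⟨s, hs⟩ := Nat.exists_eq_add_of_le (hR v.1)
    rw [hs, pow_add, pow_mul]
    exact Subalgebra.pow_mem _ (Pool.Agent.Y212.Pk.pow_memP lv r v) _
  have h2 : IsVariety (X := Spec (CommRingCat.of
      (Pool.Agent.Y212.Pk.InvP k n m lv fun i => p ^ r i)))
      (Spec.map (CommRingCat.ofHom
        (algebraMap k (Pool.Agent.Y212.Pk.InvP k n m lv fun i => p ^ r i)))) :=
    isVariety_spec
  exact ⟨h2, Pool.Agent.Y212.Pk.hasResolutionP lv r hnm⟩

end Pool.Agent.Results.MP_b525bf_ag.ParabolicKernels
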